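import Pool.Agent.D0H11.GO.Stm

/-!
# Project GO (helper11), module 9 PUY: two quadruples of the second row. Author: helper7.
-/

set_option autoImplicit false

namespace Pool.Agent.D0H7.GO

open Finset MeasureTheory Filter
open Pool.Agent.D0H11.GO

/-- the difference of two different powers of two -/
theorem two_pow_sub_lower (a b m : ℕ) (ha : m ≤ a) (hb : m ≤ b) (hab : a ≠ b) :
    (2 : ℝ) ^ m ≤ |(2 : ℝ) ^ a - 2 ^ b| := by
  have key : ∀ a b : ℕ, m ≤ b → b < a → (2 : ℝ) ^ m ≤ (2 : ℝ) ^ a - 2 ^ b := by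
    intro a b hb hba
    have h1 : (2 : ℝ) ^ (b + 1) ≤ 2 ^ a := pow_le_pow_right₀ (by norm_num) hba
    have h2 : (2 : ℝ) ^ m ≤ 2 ^ b := pow_le_pow_right₀ (by norm_num) hb
    rw [pow_succ] at h1
    linarith
  rcases lt_or_gt_of_ne hab with h | h
  · rw [abs_sub_comm]
    exact (key b a ha h).trans (le_abs_self _)
  · exact (key a b hb h).trans (le_abs_self _)

theorem two_pow_sub_upper (a b m : ℕ) (ha : a ≤ m) (hb : b ≤ m) :
    |(2 : ℝ) ^ a - 2 ^ b| ≤ (2 : ℝ) ^ m := by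
  have h1 : (2 : ℝ) ^ a ≤ 2 ^ m := pow_le_pow_right₀ (by norm_num) ha
  have h2 : (2 : ℝ) ^ b ≤ 2 ^ m := pow_le_pow_right₀ (by norm_num) hb
  have h3 : (0 : ℝ) < 2 ^ a := by positivity
  have h4 : (0 : ℝ) < 2 ^ b := by positivity
  rw [abs_le]
  constructor <;> linarith

theorem mem_QY {M : ℕ} {q : Fin 4 → ℕ} (h : q ∈ QY M) :
    29 * M ≤ q 0 ∧ q 0 < 30 * M ∧ 25 * M ≤ q 1 ∧ q 1 < 26 * M ∧ 21 * M ≤ q 2 ∧ q 2 < 22 * M := by
  classical
  unfold QY at h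
  rw [Finset.mem_filter] at h
  obtain ⟨h1, h2, h3, h4, h5, h6⟩ := h
  unfold Pool.Agent.D0H11.GY.QQ at h1
  rw [Finset.mem_filter, Fintype.mem_piFinset] at h1
  have h7 := Finset.mem_Ico.mp (h1.1 0)
  omega

/-- Module 9. -/
theorem t_PUY : S_PD → S_PUY := by
  rintro ⟨C, hC, hPD⟩
  refine ⟨C, hC, fun c r hr hrc => ?_⟩
  filter_upwards [hPD c r hr hrc, eventually_ge_atTop 1] with M hM hM1
  have key : ∀ q ∈ QY M, ∀ q' ∈ QY M, q 0 ≤ q' 0 →
      ¬ (q 0 + q' 1 = q' 0 + q 1 ∧ q 0 + q' 2 = q' 0 + q 2) →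
      volume {α : ℝ | α ∈ Set.Icc (c - r) (c + r) ∧ PY α q ∧ PY α q'} ≤
        ENNReal.ofReal (C * r / (M : ℝ) ^ 2) := by
    intro q hq q' hq' hle hne
    obtain ⟨a1, a2, a3, a4, a5, a6⟩ := mem_QY hq
    obtain ⟨b1, b2, b3, b4, b5, b6⟩ := mem_QY hq'
    obtain ⟨k, hk⟩ := Nat.exists_eq_add_of_le hle
    have hkM : k < M := by omega
    set A : ℝ := 2 ^ q 0 + 2 ^ q 1 + 2 ^ q 2 with hA
    set B : ℝ := (2 ^ q' 1 - 2 ^ (q 1 + k)) + (2 ^ q' 2 - 2 ^ (q 2 + k)) with hB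
    have hAB : (2 : ℝ) ^ k * A + B = 2 ^ q' 0 + 2 ^ q' 1 + 2 ^ q' 2 := by
      rw [hA, hB, hk, pow_add, pow_add, pow_add]
      ring
    have u1 := two_pow_sub_upper (q' 1) (q 1 + k) (27 * M) (by omega) (by omega)
    have u2 := two_pow_sub_upper (q' 2) (q 2 + k) (23 * M) (by omega) (by omega)
    have p23 : (2 : ℝ) ^ (23 * M) ≤ 2 ^ (24 * M) := pow_le_pow_right₀ (by norm_num) (by omega)
    have p24 : (2 : ℝ) ^ (24 * M) * 2 ≤ 2 ^ (25 * M) := by
      rw [← pow_succ]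
      exact pow_le_pow_right₀ (by norm_num) (by omega)
    have p1 : (2 : ℝ) ^ M ≤ 2 ^ (24 * M) := pow_le_pow_right₀ (by norm_num) (by omega)
    have p21 : (2 : ℝ) ^ M ≤ 2 ^ (21 * M) := pow_le_pow_right₀ (by norm_num) (by omega)
    have p27 : (2 : ℝ) ^ (23 * M) ≤ 2 ^ (27 * M) := pow_le_pow_right₀ (by norm_num) (by omega)
    have hBlow : (2 : ℝ) ^ M ≤ |B| := by
      by_cases h1 : q' 1 = q 1 + k
      · have h2 : q' 2 ≠ q 2 + k := fun h2 => hne ⟨by omega, by omega⟩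
        have l2 := two_pow_sub_lower (q' 2) (q 2 + k) (21 * M) (by omega) (by omega) h2
        have h3 : B = 2 ^ q' 2 - 2 ^ (q 2 + k) := by
          rw [hB, h1, sub_self, zero_add]
        rw [h3]
        exact p21.trans l2
      · have l1 := two_pow_sub_lower (q' 1) (q 1 + k) (25 * M) (by omega) (by omega) h1
        have h3 : |(2 : ℝ) ^ q' 1 - 2 ^ (q 1 + k)| ≤ |B| + |(2 : ℝ) ^ q' 2 - 2 ^ (q 2 + k)| := by
          have h4 : (2 : ℝ) ^ q' 1 - 2 ^ (q 1 + k) = B - (2 ^ q' 2 - 2 ^ (q 2 + k)) := by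
            rw [hB]
            ring
          rw [h4]
          exact abs_sub _ _
        linarith
    have hBup : |B| * 2 ^ M ≤ A := by
      have h1 : |B| ≤ 2 ^ (27 * M) * 2 := by
        have h2 : |B| ≤ |(2 : ℝ) ^ q' 1 - 2 ^ (q 1 + k)| + |(2 : ℝ) ^ q' 2 - 2 ^ (q 2 + k)| :=
          abs_add_le _ _
        linarith
      have h2 : (2 : ℝ) ^ (27 * M) * 2 * 2 ^ M ≤ 2 ^ q 0 := by
        rw [← pow_succ, ← pow_add]
        exact pow_le_pow_right₀ (by norm_num) (by omega)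
      have h3 : |B| * 2 ^ M ≤ 2 ^ (27 * M) * 2 * 2 ^ M :=
        mul_le_mul_of_nonneg_right h1 (by positivity)
      have h4 : (0 : ℝ) < 2 ^ q 1 := by positivity
      have h5 : (0 : ℝ) < 2 ^ q 2 := by positivity
      rw [hA]
      linarith
    have h := hM A B k hBlow hBup
    rw [hAB] at h
    exact h
  intro q hq q' hq' hne
  rcases le_total (q 0) (q' 0) with h | h
  · exact key q hq q' hq' h hne
  · have h1 := key q' hq' q hq h (fun h2 => hne ⟨by omega, by omega⟩)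
    have h2 : {α : ℝ | α ∈ Set.Icc (c - r) (c + r) ∧ PY α q ∧ PY α q'} =
        {α : ℝ | α ∈ Set.Icc (c - r) (c + r) ∧ PY α q' ∧ PY α q} := by
      ext α
      simp only [Set.mem_ofPred_eq]
      tauto
    rw [h2]
    exact h1

end Pool.Agent.D0H7.GO
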